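import Mathlib

open Set Filter Topology Complex Metric InnerProductSpace
open scoped ContDiff

namespace Pool.Agent.H.MP_a50f86_an

abbrev E := EuclideanSpace ℝ (Fin 4)

lemma conj {g : ℂ → E} (hg : ContDiffOn ℝ 2 g (ball 0 1))
    (hl : ∀ z ∈ ball (0 : ℂ) 1, fderiv ℝ (fun w => fderiv ℝ g w 1) z 1 +
      fderiv ℝ (fun w => fderiv ℝ g w I) z I = 0) (h0 : g 0 = 0) (i : Fin 4) :
    ∃ A : ℂ → ℂ, DifferentiableOn ℂ A (ball 0 1) ∧ (∀ z ∈ ball (0 : ℂ) 1, (A z).re = g z i) ∧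
      A 0 = 0 ∧ (deriv A 0).re = fderiv ℝ g 0 1 i ∧ -(deriv A 0).im = fderiv ℝ g 0 I i := by
  have m : ball (0 : ℂ) 1 ∈ 𝓝 0 := ball_mem_nhds _ one_pos
  have H : HarmonicOnNhd g (ball 0 1) := fun z hz => ⟨hg.contDiffAt (isOpen_ball.mem_nhds hz), by
    filter_upwards [isOpen_ball.mem_nhds hz] with w hw
    have d : DifferentiableAt ℝ (fderiv ℝ g) w :=
      ((hg.contDiffAt (isOpen_ball.mem_nhds hw)).fderiv_right (m := 1) le_rfl).differentiableAt
        (by simp)
    have := hl w hw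
    rw [fderiv_clm_apply d (by simp), fderiv_clm_apply d (by simp)] at this
    simpa [laplacian_eq_iteratedFDeriv_complexPlane, iteratedFDeriv_two_apply] using this⟩
  obtain ⟨A, hA, e⟩ := (H.comp_CLM (EuclideanSpace.proj (𝕜 := ℝ) i)).exists_analyticOnNhd_ball_re_eq
  have z : (A 0).re = 0 := by simpa [h0] using e (mem_of_mem_nhds m)
  have d := (hA 0 (mem_of_mem_nhds m)).differentiableAt.hasDerivAt
  have k := ((reCLM.hasFDerivAt.comp (0 : ℂ) d.complexToReal_fderiv).congr_of_eventuallyEq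
    (mem_of_superset m e.symm)).unique ((EuclideanSpace.proj (𝕜 := ℝ) i).hasFDerivAt.comp 0
      ((hg.contDiffAt m).differentiableAt (by simp)).hasFDerivAt)
  refine ⟨fun w => A w - A 0, hA.differentiableOn.sub_const _, fun w hw => ?_, sub_self _, ?_, ?_⟩
  · simpa [z] using e hw
  · simpa using congrArg (· 1) k
  · simpa using congrArg (· I) k

lemma schwarz {g : ℂ → E} {s : ℝ} (hg : ContDiffOn ℝ 2 g (ball 0 1))
    (hl : ∀ z ∈ ball (0 : ℂ) 1, fderiv ℝ (fun w => fderiv ℝ g w 1) z 1 +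
      fderiv ℝ (fun w => fderiv ℝ g w I) z I = 0) (h0 : g 0 = 0)
    (hb : ∀ z ∈ ball (0 : ℂ) 1, g z 0 ^ 2 + g z 1 ^ 2 ≤ 1) (h1 : fderiv ℝ g 0 1 0 = s)
    (h2 : fderiv ℝ g 0 I 1 = s) : s ≤ 1 := by
  obtain ⟨A, dA, eA, A0, a, -⟩ := conj hg hl h0 0
  obtain ⟨B, dB, eB, B0, -, b⟩ := conj hg hl h0 1
  have m : ball (0 : ℂ) 1 ∈ 𝓝 0 := ball_mem_nhds _ one_pos
  have key : ∀ r ∈ Ioo (0 : ℝ) 1, s * r ≤ 1 := fun r hr => by
    have d : DifferentiableOn ℂ (fun z => exp (z * A z + r ^ 2 * dslope A 0 z - I * z * B z +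
        I * r ^ 2 * dslope B 0 z)) (ball 0 1) := by
      have := (differentiableOn_dslope m).2 dA
      have := (differentiableOn_dslope m).2 dB
      fun_prop
    have := norm_le_of_forall_mem_frontier_norm_le (isBounded_ball (x := (0 : ℂ)) (r := r))
      (d.diffContOnCl_ball (closedBall_subset_ball hr.2)) (C := Real.exp (2 * r))
      (fun z hz => by
        rw [frontier_ball _ hr.1.ne', mem_sphere_zero_iff_norm] at hz
        have z0 : z ≠ 0 := fun h => hr.1.ne' (by simpa [h] using hz.symm)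
        have hz1 : z ∈ ball (0 : ℂ) 1 := mem_ball_zero_iff.2 (hz ▸ hr.2)
        have c : (r : ℂ) ^ 2 = z * (starRingEnd ℂ) z := by rw [mul_conj', hz]
        have n : z.re ^ 2 + z.im ^ 2 = r ^ 2 := by
          rw [← hz, Complex.sq_norm, normSq_apply]; ring
        have e : ∀ F : ℂ → ℂ, F 0 = 0 → r ^ 2 * dslope F 0 z = (starRingEnd ℂ) z * F z :=
          fun F h => by
            rw [dslope_of_ne _ z0, slope_def_field, h, c]; field_simp; ring
        rw [norm_exp, Real.exp_le_exp, mul_assoc I, mul_assoc I, e A A0, e B B0]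
        simp only [add_re, sub_re, mul_re, mul_im, I_re, I_im, conj_re, conj_im, eA z hz1, eB z hz1]
        have := hb z hz1
        have q : (z.re * g z 0 + z.im * g z 1) ^ 2 ≤ r ^ 2 := by
          nlinarith [sq_nonneg (z.re * g z 1 - z.im * g z 0), sq_nonneg r]
        nlinarith [abs_le_of_sq_le_sq' q hr.1.le, sq_nonneg r])
      (z := 0) (subset_closure (mem_ball_self hr.1))
    rw [norm_exp, Real.exp_le_exp, dslope_same, dslope_same, ← ofReal_pow] at this
    simp only [add_re, sub_re, mul_re, mul_im, I_re, I_im, ofReal_re, ofReal_im, zero_re, zero_im,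
      a, h1, neg_eq_iff_eq_neg.1 b, h2] at this
    nlinarith [hr.1]
  refine le_of_forall_pos_le_add fun e he => ?_
  by_contra h
  have p : 0 < 1 + e := by linarith
  have := key (1 / (1 + e)) ⟨by positivity, (div_lt_one p).2 (by linarith)⟩
  rw [mul_one_div, div_le_one p] at this
  exact h this

lemma chi : ∃ χ : ℝ → ℝ, ContDiff ℝ ∞ χ ∧ ConvexOn ℝ univ χ ∧ (∀ t ≤ 1, χ t = 0) ∧
    (∀ t, 0 ≤ χ t) ∧ ∀ t, t - 2 ≤ χ t := by
  have c : Continuous fun s : ℝ => Real.smoothTransition (s - 1) := by fun_prop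
  set χ : ℝ → ℝ := fun t => ∫ s in (1 : ℝ)..t, Real.smoothTransition (s - 1) with hχ
  have d : ∀ t, HasDerivAt χ (Real.smoothTransition (t - 1)) t := fun t =>
    (c.integral_hasStrictDerivAt 1 t).hasDerivAt
  have e : deriv χ = fun t => Real.smoothTransition (t - 1) := funext fun t => (d t).deriv
  have cv : ConvexOn ℝ univ χ := Monotone.convexOn_univ_of_deriv (fun t => (d t).differentiableAt)
    (e ▸ fun a b h => Real.smoothTransition.monotone (by linarith))
  have z : ∀ t ≤ 1, χ t = 0 := fun t ht => by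
    rw [hχ]
    refine (intervalIntegral.integral_congr (g := fun _ => 0) fun s hs => ?_).trans (by simp)
    rw [uIcc_of_ge ht] at hs
    exact Real.smoothTransition.zero_of_nonpos (by linarith [hs.2])
  have p : ∀ t, 0 ≤ χ t := fun t => by
    rcases le_total t 1 with h | h
    · exact (z t h).ge
    · exact intervalIntegral.integral_nonneg h fun _ _ => Real.smoothTransition.nonneg _
  refine ⟨χ, contDiff_infty_iff_deriv.2 ⟨fun t => (d t).differentiableAt, e ▸
    Real.smoothTransition.contDiff.comp (contDiff_id.sub contDiff_const)⟩, cv, z, p, fun t => ?_⟩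
  rcases le_or_gt t 2 with h | h
  · linarith [p t]
  · have := cv.le_slope_of_hasDerivAt trivial trivial h (d 2)
    rw [Real.smoothTransition.one_of_one_le (by norm_num), slope_def_field,
      le_div_iff₀ (by linarith)] at this
    linarith [p 2]

theorem dom : ∃ ρ : E → ℝ, ContDiff ℝ ∞ ρ ∧ Bornology.IsBounded {x | ρ x < 0} ∧
    Convex ℝ {x | ρ x < 0} ∧ (∀ x, ¬ρ x < 0 → fderiv ℝ ρ x ≠ 0) ∧
    (∀ x, ρ x < 0 → x 0 ^ 2 + x 1 ^ 2 ≤ 1) ∧
    ∀ x : E, x 0 ^ 2 + x 1 ^ 2 < 1 → |x 2| ≤ 1 → |x 3| ≤ 1 → ρ x < 0 := by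
  obtain ⟨χ, d, cv, z, p, l⟩ := chi
  set ρ : E → ℝ := fun x => x 0 ^ 2 + x 1 ^ 2 + χ (x 2) + χ (-x 2) + χ (x 3) + χ (-x 3) + -1 with hρ
  have dρ : ContDiff ℝ ∞ ρ := by fun_prop
  have k : ∀ f : ℝ → ℝ, ConvexOn ℝ univ f → ∀ i, ConvexOn ℝ univ (fun x : E => f (x i)) ∧
      ConvexOn ℝ univ fun x : E => f (-x i) := fun f hf i =>
    ⟨hf.comp_linearMap (EuclideanSpace.projₗ (𝕜 := ℝ) i),
      hf.comp_linearMap (-EuclideanSpace.projₗ (𝕜 := ℝ) i)⟩
  have sq : ConvexOn ℝ univ fun t : ℝ => t ^ 2 := Even.convexOn_pow (by decide)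
  have cρ : ConvexOn ℝ univ ρ := ((((((k _ sq 0).1.add (k _ sq 1).1).add (k _ cv 2).1).add
    (k _ cv 2).2).add (k _ cv 3).1).add (k _ cv 3).2).add_const _
  have ins : ∀ x : E, x 0 ^ 2 + x 1 ^ 2 < 1 → |x 2| ≤ 1 → |x 3| ≤ 1 → ρ x < 0 := fun x a b c => by
    simp only [hρ, z _ (le_of_abs_le b), z _ ((neg_le_abs _).trans b), z _ (le_of_abs_le c),
      z _ ((neg_le_abs _).trans c)]
    linarith
  refine ⟨ρ, dρ, isBounded_iff_forall_norm_le.2 ⟨5, fun x hx => ?_⟩,
    by simpa using cρ.convex_lt 0, fun x hx h => hx ?_, fun x hx => ?_, ins⟩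
  · simp only [hρ, mem_setOf_eq] at hx
    have := p (x 2); have := p (-x 2); have := p (x 3); have := p (-x 3)
    have := l (x 2); have := l (-x 2); have := l (x 3); have := l (-x 3)
    have := sq_nonneg (x 0); have := sq_nonneg (x 1)
    have a : x 2 ^ 2 ≤ 3 ^ 2 := sq_le_sq' (by linarith) (by linarith)
    have b : x 3 ^ 2 ≤ 3 ^ 2 := sq_le_sq' (by linarith) (by linarith)
    refine abs_le_of_sq_le_sq' (b := 5) ?_ (by norm_num) |>.2
    rw [EuclideanSpace.real_norm_sq_eq, Fin.sum_univ_four]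
    linarith
  · have c1 : ConvexOn ℝ univ fun t : ℝ => ρ (t • x) :=
      cρ.comp_linearMap (LinearMap.toSpanSingleton ℝ E x)
    have d1 := (dρ.differentiable (by simp) x).hasFDerivAt.comp_hasDerivAt_of_eq (1 : ℝ)
      ((hasDerivAt_id (1 : ℝ)).smul_const x) (by simp)
    have := c1.slope_le_of_hasDerivAt trivial trivial one_pos d1
    simp only [h, slope_def_field, one_smul, zero_smul, sub_zero, div_one, zero_apply] at this
    linarith [ins 0 (by simp) (by simp) (by simp)]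
  · simp only [hρ] at hx
    linarith [p (x 2), p (-x 2), p (x 3), p (-x 3)]

noncomputable def P (i j : Fin 4) : ℂ →L[ℝ] E :=
  reCLM.smulRight (EuclideanSpace.single i 1) + imCLM.smulRight (EuclideanSpace.single j 1)

noncomputable def disc (c : ℝ) (z : ℂ) : E := P 0 1 z + c • P 2 3 (z * z)

lemma ddisc (c : ℝ) (z v : ℂ) : fderiv ℝ (disc c) z v = P 0 1 v + c • P 2 3 (2 * z * v) := by
  have := ((P 0 1).hasFDerivAt.add (((P 2 3).hasFDerivAt.comp z
    ((hasFDerivAt_id z).mul (hasFDerivAt_id z))).const_smul c)).fderiv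
  refine (congrArg (· v) this).trans ?_
  simp [two_mul, add_mul]

lemma dd (c : ℝ) (z v : ℂ) :
    fderiv ℝ (fun w => fderiv ℝ (disc c) w v) z v = c • P 2 3 (2 * v * v) := by
  simp only [ddisc]
  have := ((((P 2 3).hasFDerivAt.comp z (((hasFDerivAt_id z).const_mul 2).mul_const v)).const_smul
    c).const_add (P 0 1 v)).fderiv
  refine (congrArg (· v) this).trans ?_
  simp [mul_comm]

end Pool.Agent.H.MP_a50f86_an
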